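import Mathlib
import Pool.Agent.MP_2a1f0e_nt.Div

set_option autoImplicit false

open Finset

namespace Pool.Agent.MP_9b2bac_nt.Pw

lemma pow_sub_one_ne {a n : ℕ} (ha : 2 ≤ a) (hn : n ≠ 0) : a ^ n - 1 ≠ 0 := by
  have : 1 < a ^ n := Nat.one_lt_pow hn (by omega)
  omega

lemma dvd_iff_cast {a n p : ℕ} (ha : 2 ≤ a) : p ∣ a ^ n - 1 ↔ (a : ZMod p) ^ n = 1 := by
  have h1 : 1 ≤ a ^ n := Nat.one_le_pow _ _ (by omega)
  rw [← ZMod.natCast_eq_zero_iff, Nat.cast_sub h1]
  push_cast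
  exact sub_eq_zero

lemma val_mono {p x y : ℕ} [Fact p.Prime] (hxy : x ∣ y) (hy : y ≠ 0) :
    padicValNat p x ≤ padicValNat p y :=
  (padicValNat_dvd_iff_le hy).1 (pow_padicValNat_dvd.trans hxy)

/-- facts about the order of `a` modulo a prime divisor of `a ^ n - 1`. -/
lemma ord_facts {a n p : ℕ} (ha : 2 ≤ a) (hn : n ≠ 0) (hp : p.Prime) (h : p ∣ a ^ n - 1) :
    orderOf (a : ZMod p) ∣ n ∧ orderOf (a : ZMod p) ∣ p - 1 ∧
      p ∣ a ^ orderOf (a : ZMod p) - 1 ∧ ¬ p ∣ a := by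
  have := Fact.mk hp
  have h1 := (dvd_iff_cast ha).1 h
  have h0 : (a : ZMod p) ≠ 0 := by
    intro h0
    rw [h0, zero_pow hn] at h1
    exact zero_ne_one h1
  refine ⟨orderOf_dvd_of_pow_eq_one h1, ZMod.orderOf_dvd_card_sub_one h0,
    (dvd_iff_cast ha).2 (pow_orderOf_eq_one _), ?_⟩
  rwa [← ZMod.natCast_eq_zero_iff]

lemma val_odd {a n p : ℕ} (ha : 2 ≤ a) (hn : n ≠ 0) (hp : p.Prime) (h2 : p ≠ 2)
    (h : p ∣ a ^ n - 1) :
    padicValNat p (a ^ n - 1) ≤
      padicValNat p (a ^ orderOf (a : ZMod p) - 1) + padicValNat p n := by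
  have := Fact.mk hp
  obtain ⟨⟨k, hk⟩, -, h3, h4⟩ := ord_facts ha hn hp h
  set l := orderOf (a : ZMod p)
  have hl : l ≠ 0 := by rintro h0; rw [h0] at hk; simp at hk; exact hn hk
  have hk0 : k ≠ 0 := by rintro h0; rw [h0] at hk; simp at hk; exact hn hk
  have hodd : Odd p := hp.odd_of_ne_two h2
  have h5 : ¬ p ∣ a ^ l := fun h5 => h4 (hp.dvd_of_dvd_pow h5)
  have h6 := padicValNat.pow_sub_pow (p := p) hodd (x := a ^ l) (y := 1)
    (Nat.one_lt_pow hl (by omega)) h3 h5 hk0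
  rw [one_pow, ← pow_mul, ← hk] at h6
  rw [h6]
  have : padicValNat p k ≤ padicValNat p n := val_mono ⟨l, by rw [hk, mul_comm]⟩ hn
  omega

lemma sum_val_log_le (m : ℕ) (S : Finset ℕ) (hS : ∀ p ∈ S, p.Prime) :
    ∑ p ∈ S, (padicValNat p m : ℝ) * Real.log p ≤ Real.log m := by
  classical
  rw [Real.log_nat_eq_sum_factorization, Finsupp.sum, Nat.support_factorization]
  have h1 : ∑ p ∈ S, (padicValNat p m : ℝ) * Real.log p =
      ∑ p ∈ S, (m.factorization p : ℝ) * Real.log p :=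
    sum_congr rfl fun p hp => by rw [Nat.factorization_def _ (hS p hp)]
  rw [h1, ← sum_filter_add_sum_filter_not S (fun p => p ∈ m.primeFactors)]
  have h2 : ∑ p ∈ S.filter (fun p => ¬ p ∈ m.primeFactors),
      (m.factorization p : ℝ) * Real.log p = 0 := by
    refine sum_eq_zero fun p hp => ?_
    have := (mem_filter.1 hp).2
    rw [← Nat.support_factorization, Finsupp.notMem_support_iff] at this
    simp [this]
  rw [h2, add_zero]
  refine sum_le_sum_of_subset_of_nonneg (fun p hp => (mem_filter.1 hp).2) fun p _ _ => ?_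
  exact mul_nonneg (by positivity) (Real.log_natCast_nonneg p)

lemma log_eq_sum_val (m : ℕ) :
    Real.log m = ∑ p ∈ m.primeFactors, (padicValNat p m : ℝ) * Real.log p := by
  rw [Real.log_nat_eq_sum_factorization, Finsupp.sum, Nat.support_factorization]
  exact sum_congr rfl fun p hp => by
    rw [Nat.factorization_def _ (Nat.prime_of_mem_primeFactors hp)]

lemma val_two {a n : ℕ} (ha : 2 ≤ a) (hn : n ≠ 0) (h : 2 ∣ a ^ n - 1) :
    padicValNat 2 (a ^ n - 1) ≤ padicValNat 2 (a ^ 2 - 1) + padicValNat 2 n := by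
  obtain ⟨-, -, -, h4⟩ := ord_facts ha hn Nat.prime_two h
  have h1 : a ^ n - 1 ∣ a ^ (2 * n) - 1 := by
    have := Nat.sub_one_dvd_pow_sub_one (a ^ n) 2
    rwa [← pow_mul, mul_comm] at this
  have h2 := val_mono (p := 2) h1 (pow_sub_one_ne ha (by omega))
  have h3 := padicValNat.pow_two_sub_one (x := a) (n := 2 * n) (by omega) h4 (by omega)
    (even_two_mul n)
  have h5 := padicValNat.pow_two_sub_one (x := a) (n := 2) (by omega) h4 (by omega) even_two
  have h6 : padicValNat 2 (2 * n) = 1 + padicValNat 2 n := by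
    rw [padicValNat.mul (by norm_num) hn, padicValNat_self]
  have h7 : padicValNat 2 2 = 1 := padicValNat_self
  omega

lemma card_le_div (S : Finset ℕ) {l : ℕ} (hl : l ≠ 0) (P : ℝ) (hP : 0 ≤ P)
    (hS : ∀ p ∈ S, 2 ≤ p ∧ l ∣ p - 1 ∧ (p : ℝ) ≤ P) : (S.card : ℝ) ≤ P / l := by
  have hl0 : (0 : ℝ) < l := by exact_mod_cast Nat.pos_of_ne_zero hl
  have h1 : S.card ≤ (Icc 1 ⌊P / l⌋₊).card := by
    refine card_le_card_of_injOn (fun p => (p - 1) / l) (fun p hp => ?_) (fun p hp q hq hpq => ?_)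
    · obtain ⟨h2, ⟨k, hk⟩, h3⟩ := hS p hp
      have hk' : (p - 1) / l = k := by rw [hk]; exact Nat.mul_div_cancel_left k (by omega)
      simp only [coe_Icc, Set.mem_Icc, hk']
      refine ⟨?_, Nat.le_floor ?_⟩
      · rcases Nat.eq_zero_or_pos k with h0 | h0
        · rw [h0] at hk; omega
        · exact h0
      · rw [le_div_iff₀ hl0]
        have : k * l ≤ p := by rw [mul_comm, ← hk]; omega
        have : ((k * l : ℕ) : ℝ) ≤ p := by exact_mod_cast this
        push_cast at this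
        linarith
    · obtain ⟨h2, h3, -⟩ := hS p hp
      obtain ⟨h4, h5, -⟩ := hS q hq
      have e1 := Nat.div_mul_cancel h3
      have e2 := Nat.div_mul_cancel h5
      simp only at hpq
      rw [hpq] at e1
      omega
  rw [Nat.card_Icc, Nat.add_sub_cancel] at h1
  calc (S.card : ℝ) ≤ (⌊P / l⌋₊ : ℝ) := by exact_mod_cast h1
    _ ≤ P / l := Nat.floor_le (by positivity)

/-- the contribution of the primes of order `l`. -/
lemma level_le {a l p0 : ℕ} (ha : 2 ≤ a) (hl : l ≠ 0) {c P : ℝ} (hc : c ≤ 1) (hP : 1 ≤ P)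
    (h : ∀ p : ℕ, p.Prime → p0 ≤ p → (padicValNat p (a ^ (p - 1) - 1) : ℝ) ≤ (p : ℝ) ^ (1 - c))
    (S : Finset ℕ) (hS : ∀ p ∈ S, p.Prime ∧ l ∣ p - 1 ∧ (p : ℝ) ≤ P) :
    ∑ p ∈ S, (padicValNat p (a ^ l - 1) : ℝ) * Real.log p ≤
      p0 * Real.log a + √(Real.log a * Real.log P) * P ^ (1 - c / 2) := by
  have ha1 : (1 : ℝ) ≤ a := by exact_mod_cast (by omega : 1 ≤ a)
  have hla : 0 ≤ Real.log a := Real.log_nonneg ha1
  have hlP : 0 ≤ Real.log P := Real.log_nonneg hP
  have hl0 : (0 : ℝ) < l := by exact_mod_cast Nat.pos_of_ne_zero hl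
  set X := ∑ p ∈ S, (padicValNat p (a ^ l - 1) : ℝ) * Real.log p with hX
  have hA : X ≤ l * Real.log a := by
    refine (sum_val_log_le _ S fun p hp => (hS p hp).1).trans ?_
    rw [← Real.log_pow]
    have h0 : 0 < a ^ l - 1 := Nat.pos_of_ne_zero (pow_sub_one_ne ha hl)
    refine Real.log_le_log (by exact_mod_cast h0) ?_
    exact_mod_cast Nat.sub_le _ _
  have hR : 0 ≤ √(Real.log a * Real.log P) * P ^ (1 - c / 2) := by positivity
  rcases le_or_gt l p0 with h1 | h1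
  · have : (l : ℝ) ≤ p0 := by exact_mod_cast h1
    nlinarith
  have hB : X ≤ P / l * (P ^ (1 - c) * Real.log P) := by
    have h2 : X ≤ S.card • (P ^ (1 - c) * Real.log P) := by
      refine sum_le_card_nsmul S _ _ fun p hp => ?_
      obtain ⟨hp1, hp2, hp3⟩ := hS p hp
      have := Fact.mk hp1
      have hp0 : (0 : ℝ) < p := by exact_mod_cast hp1.pos
      have h2 := hp1.two_le
      have h3 : l ≤ p - 1 := Nat.le_of_dvd (by omega) hp2
      have h4 : padicValNat p (a ^ l - 1) ≤ padicValNat p (a ^ (p - 1) - 1) :=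
        val_mono (Nat.pow_sub_one_dvd_pow_sub_one a hp2) (pow_sub_one_ne ha (by omega))
      have h5 : (padicValNat p (a ^ l - 1) : ℝ) ≤ P ^ (1 - c) :=
        calc (padicValNat p (a ^ l - 1) : ℝ) ≤ (padicValNat p (a ^ (p - 1) - 1) : ℝ) := by
              exact_mod_cast h4
          _ ≤ (p : ℝ) ^ (1 - c) := h p hp1 (by omega)
          _ ≤ P ^ (1 - c) := Real.rpow_le_rpow hp0.le hp3 (by linarith)
      exact mul_le_mul h5 (Real.log_le_log hp0 hp3) (Real.log_natCast_nonneg p) (by positivity)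
    rw [nsmul_eq_mul] at h2
    refine h2.trans (mul_le_mul_of_nonneg_right ?_ (by positivity))
    exact card_le_div S hl P (by linarith) fun p hp =>
      ⟨(hS p hp).1.two_le, (hS p hp).2.1, (hS p hp).2.2⟩
  have hX0 : 0 ≤ X := sum_nonneg fun p _ => mul_nonneg (by positivity) (Real.log_natCast_nonneg p)
  have hP0 : 0 < P := by linarith
  have hsq : X ^ 2 ≤ (√(Real.log a * Real.log P) * P ^ (1 - c / 2)) ^ 2 := by
    have e1 : (P ^ (1 - c / 2)) ^ 2 = P * P ^ (1 - c) := by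
      rw [← Real.rpow_natCast, ← Real.rpow_mul hP0.le, ← Real.rpow_one_add' hP0.le (by linarith)]
      congr 1
      push_cast
      ring
    rw [mul_pow, Real.sq_sqrt (by positivity), e1]
    calc X ^ 2 = X * X := sq X
      _ ≤ (l * Real.log a) * (P / l * (P ^ (1 - c) * Real.log P)) :=
          mul_le_mul hA hB hX0 (by positivity)
      _ = _ := by field_simp
  have := abs_le_of_sq_le_sq' hsq hR
  have h3 : 0 ≤ (p0 : ℝ) * Real.log a := by positivity
  linarith [this.2]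

/-- the basic inequality: all primes of `a ^ n - 1` are at most `P`. -/
lemma log_le {a n p0 : ℕ} (ha : 2 ≤ a) (hn : n ≠ 0) {c P : ℝ} (hc : c ≤ 1) (hP : 1 ≤ P)
    (h : ∀ p : ℕ, p.Prime → p0 ≤ p → (padicValNat p (a ^ (p - 1) - 1) : ℝ) ≤ (p : ℝ) ^ (1 - c))
    (hb : ∀ p : ℕ, p.Prime → p ∣ a ^ n - 1 → (p : ℝ) ≤ P) :
    Real.log ((a ^ n - 1 : ℕ) : ℝ) ≤
      n.divisors.card * (p0 * Real.log a + √(Real.log a * Real.log P) * P ^ (1 - c / 2)) +
        2 * Real.log a + Real.log n := by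
  classical
  set N := a ^ n - 1 with hN
  set S := N.primeFactors with hS
  have hSp : ∀ p ∈ S, p.Prime := fun p hp => Nat.prime_of_mem_primeFactors hp
  have hSd : ∀ p ∈ S, p ∣ a ^ n - 1 := fun p hp => Nat.dvd_of_mem_primeFactors hp
  have h1 : Real.log N ≤ ∑ p ∈ S, ((padicValNat p (a ^ orderOf (a : ZMod p) - 1) : ℝ) * Real.log p +
      (padicValNat p (a ^ 2 - 1) : ℝ) * Real.log p + (padicValNat p n : ℝ) * Real.log p) := by
    rw [log_eq_sum_val]
    refine sum_le_sum fun p hp => ?_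
    rw [← add_mul, ← add_mul]
    refine mul_le_mul_of_nonneg_right ?_ (Real.log_natCast_nonneg p)
    have : padicValNat p N ≤ padicValNat p (a ^ orderOf (a : ZMod p) - 1) +
        padicValNat p (a ^ 2 - 1) + padicValNat p n := by
      rw [hN]
      by_cases h2 : p = 2
      · subst h2
        have := val_two ha hn (hSd 2 hp)
        omega
      · have := val_odd ha hn (hSp p hp) h2 (hSd p hp)
        omega
    exact_mod_cast this
  rw [sum_add_distrib, sum_add_distrib] at h1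
  have h2 := sum_val_log_le n S hSp
  have h3 : ∑ p ∈ S, (padicValNat p (a ^ 2 - 1) : ℝ) * Real.log p ≤ 2 * Real.log a := by
    refine (sum_val_log_le _ S hSp).trans ?_
    have h0 : 0 < a ^ 2 - 1 := Nat.pos_of_ne_zero (pow_sub_one_ne ha two_ne_zero)
    have e : 2 * Real.log a = Real.log ((a : ℝ) ^ 2) := by rw [Real.log_pow]; norm_num
    rw [e]
    refine Real.log_le_log (by exact_mod_cast h0) ?_
    exact_mod_cast Nat.sub_le _ _
  have h4 : ∑ p ∈ S, (padicValNat p (a ^ orderOf (a : ZMod p) - 1) : ℝ) * Real.log p ≤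
      n.divisors.card * (p0 * Real.log a + √(Real.log a * Real.log P) * P ^ (1 - c / 2)) := by
    rw [← sum_fiberwise_of_maps_to (s := S) (t := n.divisors) (g := fun p => orderOf (a : ZMod p))
      (fun p hp => Nat.mem_divisors.2 ⟨(ord_facts ha hn (hSp p hp) (hSd p hp)).1, hn⟩),
      ← nsmul_eq_mul]
    refine sum_le_card_nsmul _ _ _ fun l hl => ?_
    have hl0 : l ≠ 0 := (Nat.pos_of_mem_divisors hl).ne'
    refine le_trans (le_of_eq (sum_congr rfl fun p hp => ?_))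
      (level_le ha hl0 hc hP h (S.filter fun p => orderOf (a : ZMod p) = l) fun p hp => ?_)
    · rw [(mem_filter.1 hp).2]
    · obtain ⟨hp1, hp2⟩ := mem_filter.1 hp
      exact ⟨hSp p hp1, hp2 ▸ (ord_facts ha hn (hSp p hp1) (hSd p hp1)).2.1,
        hb p (hSp p hp1) (hSd p hp1)⟩
  linarith

/-- Sharp form: the valuation bound with exponent `1 - c` gives a prime factor above
`n ^ (1 + c')` whenever `(1 + c') * (1 - c / 2) < 1`. -/
theorem final_sharp (a : ℕ) (ha : 2 ≤ a) (c c' : ℝ) (hc1 : c ≤ 1) (hc' : 0 ≤ c')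
    (hcc : (1 + c') * (1 - c / 2) < 1) (p0 : ℕ)
    (h : ∀ p : ℕ, p.Prime → p0 ≤ p → (padicValNat p (a ^ (p - 1) - 1) : ℝ) ≤ (p : ℝ) ^ (1 - c)) :
    ∃ n0 : ℕ, ∀ n : ℕ, n0 ≤ n → ∃ p : ℕ, p.Prime ∧ p ∣ a ^ n - 1 ∧ (n : ℝ) ^ (1 + c') < p := by
  set e : ℝ := (1 - (1 + c') * (1 - c / 2)) / 4 with he
  have he0 : 0 < e := by rw [he]; linarith
  have he1 : e ≤ 1 / 4 := by
    have : 0 ≤ (1 + c') * (1 - c / 2) := mul_nonneg (by linarith) (by linarith)
    rw [he]; linarith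
  obtain ⟨C, hC1, hC⟩ := Pool.Agent.MP_2a1f0e_nt.divisor_bound he0
  have ha2 : (2 : ℝ) ≤ a := by exact_mod_cast ha
  have hla : 1 / 2 < Real.log a := by
    have := Real.log_le_log (by norm_num) ha2
    linarith [Real.log_two_gt_d9]
  set L := Real.log a with hL
  set D : ℝ := √(L * (1 + c') / (2 * e)) with hD
  have hD0 : 0 ≤ D := Real.sqrt_nonneg _
  set E : ℝ := C * (p0 * L + D) + 2 * L + 1 / e + 1 with hE
  have hE0 : 0 < E := by positivity
  have ht : Filter.Tendsto (fun n : ℕ => (n : ℝ) ^ e) Filter.atTop Filter.atTop :=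
    (tendsto_rpow_atTop he0).comp tendsto_natCast_atTop_atTop
  obtain ⟨n0, hn0⟩ := Filter.eventually_atTop.1 (ht.eventually_ge_atTop (2 * E))
  refine ⟨max n0 1, fun n hn => ?_⟩
  have hn1 : 1 ≤ n := le_trans (le_max_right _ _) hn
  have hx1 : (1 : ℝ) ≤ n := by exact_mod_cast hn1
  have hx0 : (0 : ℝ) < n := by linarith
  have hbig := hn0 n (le_trans (le_max_left _ _) hn)
  by_contra hcon
  push Not at hcon
  have hP : (1 : ℝ) ≤ (n : ℝ) ^ (1 + c') := Real.one_le_rpow hx1 (by linarith)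
  have h1 := log_le ha (by omega : n ≠ 0) hc1 hP h hcon
  set x : ℝ := (n : ℝ) with hx
  have hlow : x * L - 1 ≤ Real.log ((a ^ n - 1 : ℕ) : ℝ) := by
    have h2 : 1 < a ^ n := Nat.one_lt_pow (by omega) (by omega)
    have h3 : (a : ℝ) ^ n ≤ 2 * ((a ^ n - 1 : ℕ) : ℝ) := by
      have : a ^ n ≤ 2 * (a ^ n - 1) := by omega
      exact_mod_cast this
    have h4 : (0 : ℝ) < ((a ^ n - 1 : ℕ) : ℝ) := by
      have : 0 < a ^ n - 1 := by omega
      exact_mod_cast this
    have h5 := Real.log_le_log (by positivity) h3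
    rw [Real.log_pow, Real.log_mul (by norm_num) h4.ne'] at h5
    linarith [Real.log_two_lt_d9]
  have hmono : ∀ s t : ℝ, s ≤ t → x ^ s ≤ x ^ t := fun s t hst =>
    Real.rpow_le_rpow_of_exponent_le hx1 hst
  have hs : √(L * Real.log (x ^ (1 + c'))) ≤ D * x ^ e := by
    have h2 : Real.log x ≤ x ^ (2 * e) / (2 * e) := Real.log_le_rpow_div hx0.le (by positivity)
    have h3 : x ^ (2 * e) = (x ^ e) ^ 2 := by
      rw [← Real.rpow_natCast, ← Real.rpow_mul hx0.le]; congr 1; push_cast; ring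
    rw [Real.log_rpow hx0]
    refine Real.sqrt_le_iff.2 ⟨by positivity, ?_⟩
    rw [mul_pow, hD, Real.sq_sqrt (by positivity), ← h3]
    calc L * ((1 + c') * Real.log x) ≤ L * ((1 + c') * (x ^ (2 * e) / (2 * e))) := by gcongr
      _ = _ := by ring
  have hpw : (x ^ (1 + c')) ^ (1 - c / 2) = x ^ (1 - 4 * e) := by
    rw [← Real.rpow_mul hx0.le]; congr 1; rw [he]; ring
  rw [hpw] at h1
  set y := x ^ (1 - e) with hy
  have hy1 : 1 ≤ y := Real.one_le_rpow hx1 (by linarith)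
  have hxy : x = x ^ e * y := by rw [hy, ← Real.rpow_add hx0]; simp
  have hey : x ^ e ≤ y := hmono _ _ (by linarith)
  have h6 : x ^ e * (x ^ e * x ^ (1 - 4 * e)) ≤ y := by
    rw [← Real.rpow_add hx0, ← Real.rpow_add hx0]
    exact hmono _ _ (by linarith)
  have h7 : Real.log x ≤ 1 / e * y := by
    have h2 : Real.log x ≤ x ^ e / e := Real.log_le_rpow_div hx0.le he0
    calc Real.log x ≤ x ^ e / e := h2
      _ ≤ y / e := by gcongr
      _ = _ := by ring
  have hL0 : 0 ≤ L := by linarith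
  have h8 : (n.divisors.card : ℝ) * (p0 * L + √(L * Real.log (x ^ (1 + c'))) * x ^ (1 - 4 * e)) ≤
      C * (p0 * L + D) * y := by
    calc _ ≤ C * x ^ e * (p0 * L + D * x ^ e * x ^ (1 - 4 * e)) := by
          gcongr
          exact hC n
      _ = C * (p0 * L * x ^ e + D * (x ^ e * (x ^ e * x ^ (1 - 4 * e)))) := by ring
      _ ≤ C * (p0 * L * y + D * y) := by gcongr
      _ = _ := by ring
  have h9 : x * L ≤ E * y := by
    have : 2 * L ≤ 2 * L * y := by nlinarith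
    rw [hE]
    nlinarith
  have h10 : 2 * E * y * L ≤ x * L := by
    rw [hxy]
    gcongr
  have h11 : 0 < E * y := by positivity
  nlinarith

/-- From the valuation bound to the greatest prime factor. -/
theorem final (a : ℕ) (ha : 2 ≤ a) (c : ℝ) (hc : 0 < c) (p0 : ℕ)
    (h : ∀ p : ℕ, p.Prime → p0 ≤ p → (padicValNat p (a ^ (p - 1) - 1) : ℝ) ≤ (p : ℝ) ^ (1 - c)) :
    ∃ c' : ℝ, 0 < c' ∧ ∃ n0 : ℕ, ∀ n : ℕ, n0 ≤ n →
      ∃ p : ℕ, p.Prime ∧ p ∣ a ^ n - 1 ∧ (n : ℝ) ^ (1 + c') < p := by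
  have h0 : 0 < min c 1 := lt_min hc one_pos
  have h1 : min c 1 ≤ 1 := min_le_right _ _
  refine ⟨min c 1 / 2, by positivity,
    final_sharp a ha (min c 1) _ h1 (by positivity) (by nlinarith) p0 fun p hp hp0 => ?_⟩
  refine (h p hp hp0).trans (Real.rpow_le_rpow_of_exponent_le ?_ ?_)
  · exact_mod_cast hp.one_le
  · linarith [min_le_left c 1]

end Pool.Agent.MP_9b2bac_nt.Pw
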